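import Mathlib
import Pool.Agent.W648.UN.Stm

/-!
# Landsberg unicorn: holomorphy and Lipschitz bounds for `GV`
-/

set_option autoImplicit false

open MeasureTheory Set Filter Topology
open scoped ContDiff

noncomputable section

namespace Pool.Agent.W374.UN.GV

open Pool.Agent.W648.UN

/-! ### holomorphic parameter integrals -/

/-- holomorphic dependence of integrals on parameters -/
lemma hol_integral {A : Type} [NormedAddCommGroup A] [NormedSpace ℂ A] [CompleteSpace A]
    (μ : Measure ℝ) {U : Set ℂ} (hU : IsOpen U) (F : ℂ → ℝ → A) (g : ℝ → ℝ)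
    (hg : Integrable g μ) (hF : ∀ z ∈ U, AEStronglyMeasurable (F z) μ)
    (hd : ∀ᵐ s ∂μ, DifferentiableOn ℂ (fun z => F z s) U)
    (hb : ∀ᵐ s ∂μ, ∀ z ∈ U, ‖F z s‖ ≤ g s) :
    DifferentiableOn ℂ (fun z => ∫ s, F z s ∂μ) U := by
  intro z0 hz0
  obtain ⟨r, hr, hball⟩ := Metric.isOpen_iff.1 hU z0 hz0
  have hr2 : 0 < r / 2 := by positivity
  have hsub : ∀ z ∈ Metric.ball z0 (r / 2), Metric.closedBall z (r / 4) ⊆ U := by
    intro z hz w hw
    apply hball
    rw [Metric.mem_ball] at hz ⊢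
    rw [Metric.mem_closedBall] at hw
    calc dist w z0 ≤ dist w z + dist z z0 := dist_triangle _ _ _
      _ < r := by linarith
  have hmeas : AEStronglyMeasurable (fun s => deriv (fun z => F z s) z0) μ := by
    have hseq : ∀ n : ℕ, z0 + ((r / 4 / (n + 1) : ℝ) : ℂ) ∈ U := by
      intro n
      apply hsub z0 (Metric.mem_ball_self hr2)
      rw [Metric.mem_closedBall, dist_eq_norm]
      simp only [add_sub_cancel_left, Complex.norm_real, Real.norm_eq_abs]
      rw [abs_of_pos (by positivity)]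
      exact div_le_self (by positivity) (by linarith [(Nat.cast_nonneg n : (0:ℝ) ≤ n)])
    refine aestronglyMeasurable_of_tendsto_ae (u := atTop) (f := fun (n : ℕ) s =>
      (((r / 4 / (n + 1) : ℝ) : ℂ))⁻¹ • (F (z0 + ((r / 4 / (n + 1) : ℝ) : ℂ)) s - F z0 s)) ?_ ?_
    · intro n
      exact ((hF _ (hseq n)).sub (hF _ hz0)).const_smul _
    · filter_upwards [hd] with s hs
      have h1 : HasDerivAt (fun z => F z s) (deriv (fun z => F z s) z0) z0 :=
        (hs.differentiableAt (hU.mem_nhds hz0)).hasDerivAt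
      have h2 := h1.tendsto_slope_zero
      have h3 : Tendsto (fun n : ℕ => ((r / 4 / (n + 1) : ℝ) : ℂ)) atTop (𝓝[≠] 0) := by
        rw [tendsto_nhdsWithin_iff]
        constructor
        · have : Tendsto (fun n : ℕ => (r / 4) * (1 / ((n : ℝ) + 1))) atTop (𝓝 ((r / 4) * 0)) :=
            tendsto_one_div_add_atTop_nhds_zero_nat.const_mul _
          rw [mul_zero] at this
          have h4 := (Complex.continuous_ofReal.tendsto 0).comp this
          simp only [Function.comp_def, Complex.ofReal_zero] at h4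
          refine h4.congr fun n => ?_
          congr 1
          ring
        · refine Eventually.of_forall fun n => ?_
          simp only [mem_compl_iff, mem_singleton_iff, Complex.ofReal_eq_zero]
          positivity
      exact h2.comp h3
  have key := hasDerivAt_integral_of_dominated_loc_of_deriv_le (μ := μ) (𝕜 := ℂ)
    (F := F) (F' := fun z s => deriv (fun z => F z s) z) (x₀ := z0)
    (bound := fun s => g s / (r / 4)) (s := Metric.ball z0 (r / 2))
    (Metric.ball_mem_nhds z0 hr2)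
    (by
      filter_upwards [hU.mem_nhds hz0] with z hz using hF z hz)
    (by
      refine hg.mono' (hF z0 hz0) ?_
      filter_upwards [hb] with s hs using hs z0 hz0)
    hmeas
    (by
      filter_upwards [hd, hb] with s hs hs' z hz
      have hdc : DiffContOnCl ℂ (fun z => F z s) (Metric.ball z (r / 4)) := by
        apply DifferentiableOn.diffContOnCl
        rw [closure_ball z (by positivity : r / 4 ≠ 0)]
        exact hs.mono (hsub z hz)
      exact Complex.norm_deriv_le_of_forall_mem_sphere_norm_le (by positivity) hdc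
        fun w hw => hs' w (hsub z hz (Metric.sphere_subset_closedBall hw)))
    (hg.div_const _)
    (by
      filter_upwards [hd] with s hs z hz
      exact (hs.differentiableAt (hU.mem_nhds
        (hsub z hz (Metric.mem_closedBall_self (by positivity))))).hasDerivAt)
  exact key.2.differentiableAt.differentiableWithinAt

/-! ### sectors -/

lemma Om0_sub : Om0 ⊆ Om := fun b hb => by
  have : |b.im| < b.re := hb
  show |b.im| ≤ b.re
  exact this.le

lemma isOpen_Om0 : IsOpen Om0 := by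
  unfold Om0
  exact isOpen_lt (continuous_abs.comp Complex.continuous_im) Complex.continuous_re

lemma mul_Om0 {y : ℂ} (hy : y ∈ Om0) {s : ℝ} (hs : 0 < s) : y * (s : ℂ) ∈ Om0 := by
  have : |y.im| < y.re := hy
  show |(y * (s : ℂ)).im| < (y * (s : ℂ)).re
  rw [Complex.im_mul_ofReal, Complex.re_mul_ofReal, abs_mul, abs_of_pos hs]
  exact mul_lt_mul_of_pos_right this hs

lemma mul_Om {y : ℂ} (hy : y ∈ Om) {s : ℝ} (hs : 0 ≤ s) : y * (s : ℂ) ∈ Om := by
  have : |y.im| ≤ y.re := hy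
  show |(y * (s : ℂ)).im| ≤ (y * (s : ℂ)).re
  rw [Complex.im_mul_ofReal, Complex.re_mul_ofReal, abs_mul, abs_of_nonneg hs]
  exact mul_le_mul_of_nonneg_right this hs

lemma zero_Om : (0 : ℂ) ∈ Om := by
  show |(0 : ℂ).im| ≤ (0 : ℂ).re
  simp

/-! ### the predicate `NB` -/

section NBs

variable {A : Type} [NormedCommRing A]

lemma NB.mono {H : ℝ → A} {a b : ℝ} (h : NB H a) (hab : a ≤ b) : NB H b :=
  ⟨h.1, h.2.1, h.2.2.trans hab⟩

lemma NB.neg {H : ℝ → A} {a : ℝ} (h : NB H a) : NB (fun s => - H s) a := by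
  refine ⟨h.1.neg, ?_, ?_⟩
  · simpa only [norm_neg] using h.2.1
  · simpa only [norm_neg] using h.2.2

lemma NB.nonneg {H : ℝ → A} {a : ℝ} (h : NB H a) : 0 ≤ a := by
  refine le_trans ?_ h.2.2
  apply setIntegral_nonneg measurableSet_Ioo
  intro s hs
  have : 0 ≤ 1 - s := by linarith [hs.2]
  positivity

lemma NB.neg_sub {H K : ℝ → A} {a : ℝ} (h : NB (fun x => H x - K x) a) :
    NB (fun x => - H x - - K x) a := by
  have := NB.neg h
  have e : (fun x => - H x - - K x) = fun s => -(H s - K s) := by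
    funext x; ring
  rw [e]; exact this

end NBs

variable {A : Type} [NormedCommRing A] [NormedAlgebra ℂ A] [CompleteSpace A] [NormOneClass A]

lemma ups_diff (hol : S_HOL) {H : ℝ → A} (h : NB H (1 / 20)) :
    DifferentiableOn ℂ (fun z => Ups H z) Om0 :=
  (hol A Om0 (fun _ => H) (fun s => ‖H s‖) (fun z => z) isOpen_Om0 (fun _ hz => Om0_sub hz)
    differentiableOn_id (fun _ _ => h.1) (fun _ _ => differentiableOn_const _)
    (fun _ _ _ _ => le_rfl) h.2.1 h.2.2).1

lemma lam_diff (hol : S_HOL) {H : ℝ → A} (h : NB H (1 / 20)) :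
    DifferentiableOn ℂ (lam H) Om0 :=
  (ups_diff hol h).sub (ups_diff hol (NB.neg h))

lemma lam_bd (hB : S_BD) {H : ℝ → A} (h : NB H (1 / 20)) {b : ℂ} (hb : b ∈ Om) :
    ‖lam H b‖ ≤ 16 := by
  unfold lam
  have h1 := (hB A H b h hb).1
  have h2 := (hB A _ b (NB.neg h) hb).1
  calc _ ≤ ‖Ups H b‖ + ‖Ups (fun s => - H s) b‖ := norm_sub_le _ _
    _ ≤ 16 := by linarith

lemma sin_pos' {f : ℝ} (hf : f ∈ Ioc 0 (Real.pi / 2)) : 0 < Real.sin f ^ 2 := by
  have := Real.sin_pos_of_pos_of_lt_pi hf.1 (by linarith [hf.2, Real.pi_pos])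
  positivity

/-- the integrand of `GV` -/
def gi (H : ℝ → A) (y : ℂ) (f : ℝ) : A :=
  ((Real.sin f ^ 2 : ℝ) : ℂ) • lam H (y * ((Real.sin f ^ 2 : ℝ) : ℂ))

lemma gi_bd (hB : S_BD) {H : ℝ → A} (h : NB H (1 / 20)) {y : ℂ} (hy : y ∈ Om) (f : ℝ) :
    ‖gi H y f‖ ≤ 16 := by
  unfold gi
  rw [norm_smul, Complex.norm_real, Real.norm_eq_abs, abs_of_nonneg (sq_nonneg _)]
  have h1 := lam_bd hB h (mul_Om hy (sq_nonneg (Real.sin f)))
  have h2 : Real.sin f ^ 2 ≤ 1 := Real.sin_sq_le_one f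
  nlinarith [sq_nonneg (Real.sin f), norm_nonneg (lam H (y * ((Real.sin f ^ 2 : ℝ) : ℂ)))]

lemma gi_cont (hol : S_HOL) {H : ℝ → A} (h : NB H (1 / 20)) {y : ℂ} (hy : y ∈ Om0) :
    ContinuousOn (gi H y) (Ioc 0 (Real.pi / 2)) := by
  unfold gi
  refine ContinuousOn.smul (by fun_prop) ?_
  refine (lam_diff hol h).continuousOn.comp (by fun_prop) ?_
  intro f hf
  exact mul_Om0 hy (sin_pos' hf)

lemma gi_meas (hol : S_HOL) {H : ℝ → A} (h : NB H (1 / 20)) {y : ℂ} (hy : y ∈ Om0) :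
    AEStronglyMeasurable (gi H y) (volume.restrict (Ioc 0 (Real.pi / 2))) :=
  (gi_cont hol h hy).aestronglyMeasurable measurableSet_Ioc

lemma gi_int (hB : S_BD) (hol : S_HOL) {H : ℝ → A} (h : NB H (1 / 20)) {y : ℂ} (hy : y ∈ Om0) :
    IntervalIntegrable (gi H y) volume 0 (Real.pi / 2) := by
  rw [intervalIntegrable_iff, uIoc_of_le (by positivity)]
  exact Integrable.mono' (integrable_const (16 : ℝ)) (gi_meas hol h hy)
    (Eventually.of_forall fun f => gi_bd hB h (Om0_sub hy) f)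

omit [CompleteSpace A] [NormOneClass A] in
lemma GV_eq (H : ℝ → A) (y : ℂ) : GV H y = ∫ f in (0 : ℝ)..(Real.pi / 2), gi H y f := rfl

lemma GV_diff (hB : S_BD) (hol : S_HOL) {H : ℝ → A} (h : NB H (1 / 20)) :
    DifferentiableOn ℂ (GV H) Om0 := by
  have key := hol_integral (volume.restrict (Ioc 0 (Real.pi / 2))) isOpen_Om0 (gi H)
    (fun _ => 16) (integrable_const _) (fun z hz => gi_meas hol h hz)
    (by
      filter_upwards [ae_restrict_mem measurableSet_Ioc] with f hf
      have h1 : DifferentiableOn ℂ (fun y : ℂ => lam H (y * ((Real.sin f ^ 2 : ℝ) : ℂ))) Om0 :=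
        (lam_diff hol h).comp (by fun_prop) (fun y hy => mul_Om0 hy (sin_pos' hf))
      exact h1.const_smul (((Real.sin f ^ 2 : ℝ) : ℂ)))
    (Eventually.of_forall fun f z hz => gi_bd hB h (Om0_sub hz) f)
  refine key.congr fun y _ => ?_
  rw [GV_eq, intervalIntegral.integral_of_le (by positivity)]

omit [NormOneClass A] in
lemma int_sin_sq (v : A) :
    ∫ f in (0 : ℝ)..(Real.pi / 2), ((Real.sin f ^ 2 : ℝ) : ℂ) • v =
      ((Real.pi / 4 : ℝ) : ℂ) • v := by
  rw [intervalIntegral.integral_smul_const, intervalIntegral.integral_ofReal, integral_sin_sq]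
  congr 2
  simp
  ring

theorem th (hB : S_BD) (hol : S_HOL) (hL : S_LIP) : S_GV := by
  obtain ⟨C, hC, hLC⟩ := hL
  refine ⟨4 * C, by positivity, ?_⟩
  intro A _ _ _ _ H K η hH hK hHK
  have hH2 : NB H (1 / 20) := NB.mono hH (by norm_num)
  have hK2 : NB K (1 / 20) := NB.mono hK (by norm_num)
  have hη : 0 ≤ η := NB.nonneg hHK
  have hpi : |Real.pi / 2 - 0| ≤ 2 := by
    rw [sub_zero, abs_of_pos (by positivity)]; linarith [Real.pi_le_four]
  refine ⟨GV_diff hB hol hH2, fun y hy => ⟨?_, ?_⟩⟩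
  · rw [GV_eq, GV_eq, ← intervalIntegral.integral_sub (gi_int hB hol hH2 hy)
      (gi_int hB hol hK2 hy)]
    have h1 := intervalIntegral.norm_integral_le_of_norm_le_const (a := 0) (b := Real.pi / 2)
      (f := fun f => gi H y f - gi K y f) (C := 2 * C * η) ?_
    · refine h1.trans ?_
      calc 2 * C * η * |Real.pi / 2 - 0| ≤ 2 * C * η * 2 :=
            mul_le_mul_of_nonneg_left hpi (by positivity)
        _ = 4 * C * η := by ring
    · intro f _
      have hb : y * ((Real.sin f ^ 2 : ℝ) : ℂ) ∈ Om := mul_Om (Om0_sub hy) (sq_nonneg _)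
      have e1 := (hLC A H K η _ hH hK hHK hb).1
      have e2 := (hLC A _ _ η _ (NB.neg hH) (NB.neg hK) (NB.neg_sub hHK) hb).1
      have e3 : gi H y f - gi K y f = ((Real.sin f ^ 2 : ℝ) : ℂ) •
          ((Ups H (y * ((Real.sin f ^ 2 : ℝ) : ℂ)) - Ups K (y * ((Real.sin f ^ 2 : ℝ) : ℂ))) -
           (Ups (fun s => - H s) (y * ((Real.sin f ^ 2 : ℝ) : ℂ)) -
            Ups (fun s => - K s) (y * ((Real.sin f ^ 2 : ℝ) : ℂ)))) := by
        unfold gi lam
        rw [← smul_sub]
        congr 1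
        abel
      rw [e3, norm_smul, Complex.norm_real, Real.norm_eq_abs, abs_of_nonneg (sq_nonneg _)]
      have h2 : Real.sin f ^ 2 ≤ 1 := Real.sin_sq_le_one f
      refine (mul_le_mul h2 (norm_sub_le _ _) (norm_nonneg _) zero_le_one).trans ?_
      linarith
  · have e0 : (GV H y - ((Real.pi / 4 : ℝ) : ℂ) • lam H 0) -
        (GV K y - ((Real.pi / 4 : ℝ) : ℂ) • lam K 0) =
        ∫ f in (0 : ℝ)..(Real.pi / 2), ((gi H y f - ((Real.sin f ^ 2 : ℝ) : ℂ) • lam H 0) -
          (gi K y f - ((Real.sin f ^ 2 : ℝ) : ℂ) • lam K 0)) := by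
      have i1 : ∀ v : A, IntervalIntegrable (fun f : ℝ => ((Real.sin f ^ 2 : ℝ) : ℂ) • v)
          volume 0 (Real.pi / 2) := fun v => (by fun_prop : Continuous fun f : ℝ =>
            ((Real.sin f ^ 2 : ℝ) : ℂ) • v).intervalIntegrable _ _
      rw [intervalIntegral.integral_sub ((gi_int hB hol hH2 hy).sub (i1 _))
        ((gi_int hB hol hK2 hy).sub (i1 _)),
        intervalIntegral.integral_sub (gi_int hB hol hH2 hy) (i1 _),
        intervalIntegral.integral_sub (gi_int hB hol hK2 hy) (i1 _), int_sin_sq, int_sin_sq,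
        GV_eq, GV_eq]
    rw [e0]
    have h1 := intervalIntegral.norm_integral_le_of_norm_le_const (a := 0) (b := Real.pi / 2)
      (f := fun f => (gi H y f - ((Real.sin f ^ 2 : ℝ) : ℂ) • lam H 0) -
          (gi K y f - ((Real.sin f ^ 2 : ℝ) : ℂ) • lam K 0))
      (C := 2 * C * ‖y‖ ^ (1 / 4 : ℝ) * η) ?_
    · refine h1.trans ?_
      calc 2 * C * ‖y‖ ^ (1 / 4 : ℝ) * η * |Real.pi / 2 - 0| ≤
            2 * C * ‖y‖ ^ (1 / 4 : ℝ) * η * 2 :=
            mul_le_mul_of_nonneg_left hpi (by positivity)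
        _ = 4 * C * ‖y‖ ^ (1 / 4 : ℝ) * η := by ring
    · intro f _
      have hb : y * ((Real.sin f ^ 2 : ℝ) : ℂ) ∈ Om := mul_Om (Om0_sub hy) (sq_nonneg _)
      have e1 := (hLC A H K η _ hH hK hHK hb).2.2
      have e2 := (hLC A _ _ η _ (NB.neg hH) (NB.neg hK) (NB.neg_sub hHK) hb).2.2
      have h2 : Real.sin f ^ 2 ≤ 1 := Real.sin_sq_le_one f
      have h3 : ‖y * ((Real.sin f ^ 2 : ℝ) : ℂ)‖ ^ (1 / 4 : ℝ) ≤ ‖y‖ ^ (1 / 4 : ℝ) := by
        apply Real.rpow_le_rpow (norm_nonneg _) _ (by norm_num)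
        rw [norm_mul, Complex.norm_real, Real.norm_eq_abs, abs_of_nonneg (sq_nonneg _)]
        nlinarith [norm_nonneg y]
      have e3 : (gi H y f - ((Real.sin f ^ 2 : ℝ) : ℂ) • lam H 0) -
          (gi K y f - ((Real.sin f ^ 2 : ℝ) : ℂ) • lam K 0) = ((Real.sin f ^ 2 : ℝ) : ℂ) •
          (((Ups H (y * ((Real.sin f ^ 2 : ℝ) : ℂ)) - Ups H 0) -
             (Ups K (y * ((Real.sin f ^ 2 : ℝ) : ℂ)) - Ups K 0)) -
           ((Ups (fun s => - H s) (y * ((Real.sin f ^ 2 : ℝ) : ℂ)) - Ups (fun s => - H s) 0) -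
            (Ups (fun s => - K s) (y * ((Real.sin f ^ 2 : ℝ) : ℂ)) - Ups (fun s => - K s) 0))) := by
        unfold gi lam
        rw [← smul_sub, ← smul_sub, ← smul_sub]
        congr 1
        abel
      rw [e3, norm_smul, Complex.norm_real, Real.norm_eq_abs, abs_of_nonneg (sq_nonneg _)]
      refine (mul_le_mul h2 (norm_sub_le _ _) (norm_nonneg _) zero_le_one).trans ?_
      have h4 : C * ‖y * ((Real.sin f ^ 2 : ℝ) : ℂ)‖ ^ (1 / 4 : ℝ) * η ≤
          C * ‖y‖ ^ (1 / 4 : ℝ) * η :=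
        mul_le_mul_of_nonneg_right (mul_le_mul_of_nonneg_left h3 hC.le) hη
      linarith

end Pool.Agent.W374.UN.GV
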