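import Mathlib
import Pool.Agent.W374.UN.GV

/-!
# Landsberg unicorn: the second derivative of `VV`
-/

set_option autoImplicit false

open MeasureTheory Set Filter Topology
open scoped ContDiff

noncomputable section

namespace Pool.Agent.W374.UN.VPP

open Pool.Agent.W648.UN Pool.Agent.W374.UN.GV

/-! ### the real coefficients -/

def cf (u : ℝ) : ℝ := 2 * (Real.exp (2 * u) - 1) * Real.exp (-u)
def cf1 (u : ℝ) : ℝ := 2 * (Real.exp u + Real.exp (-u))
def Yf (u : ℝ) : ℝ := Real.exp (2 * u) - 1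

lemma cf_eq (u : ℝ) : cf u = 2 * (Real.exp u - Real.exp (-u)) := by
  unfold cf
  have : Real.exp (2 * u) * Real.exp (-u) = Real.exp u := by rw [← Real.exp_add]; congr 1; ring
  linear_combination 2 * this

lemma cf_eq' (u : ℝ) : cf u = 2 * Yf u * Real.exp (-u) := rfl

lemma cf_der (u : ℝ) : HasDerivAt cf (cf1 u) u := by
  have e : cf = fun u => 2 * (Real.exp u - Real.exp (-u)) := funext cf_eq
  rw [e]
  have h1 := (((Real.hasDerivAt_exp u).sub ((hasDerivAt_neg u).exp)).const_mul 2)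
  refine h1.congr_deriv ?_
  unfold cf1
  ring

lemma cf1_der (u : ℝ) : HasDerivAt cf1 (cf u) u := by
  have h1 := (((Real.hasDerivAt_exp u).add ((hasDerivAt_neg u).exp)).const_mul 2)
  refine h1.congr_deriv ?_
  rw [cf_eq]
  ring

lemma e2_der (u : ℝ) : HasDerivAt (fun u => Real.exp (2 * u)) (2 * Real.exp (2 * u)) u := by
  have h1 := ((hasDerivAt_id u).const_mul 2).exp
  refine h1.congr_deriv ?_
  simp only [id]
  ring

lemma Yf_der (u : ℝ) : HasDerivAt Yf (2 * Real.exp (2 * u)) u :=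
  (e2_der u).sub_const 1

lemma Yf_pos {u : ℝ} (hu : 0 < u) : 0 < Yf u := by
  unfold Yf
  have := Real.one_lt_exp_iff.2 (by positivity : 0 < 2 * u)
  linarith

lemma Yf_ge (u : ℝ) : 2 * u ≤ Yf u := by
  unfold Yf
  have := Real.add_one_le_exp (2 * u)
  linarith

lemma cf_nonneg {u : ℝ} (hu : 0 < u) : 0 ≤ cf u := by
  have := Yf_pos hu
  rw [cf_eq']; positivity

lemma cf_le {u : ℝ} : cf u ≤ 2 * Real.exp u := by
  rw [cf_eq]; linarith [Real.exp_pos (-u)]

lemma cf1_le {u : ℝ} (hu : 0 < u) : cf1 u ≤ 4 * Real.exp u := by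
  unfold cf1
  have : Real.exp (-u) ≤ Real.exp u := Real.exp_le_exp.2 (by linarith)
  linarith

lemma cf1_nonneg (u : ℝ) : 0 ≤ cf1 u := by unfold cf1; positivity

lemma ofReal_Om0 {y : ℝ} (hy : 0 < y) : (y : ℂ) ∈ Om0 := by
  show |((y : ℂ)).im| < ((y : ℂ)).re
  simpa using hy

lemma ball_Om0 {y : ℝ} (hy : 0 < y) : Metric.closedBall (y : ℂ) (y / 4) ⊆ Om0 := by
  intro z hz
  rw [Metric.mem_closedBall, dist_eq_norm] at hz
  have h1 := (Complex.abs_re_le_norm (z - y)).trans hz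
  have h2 := (Complex.abs_im_le_norm (z - y)).trans hz
  simp only [Complex.sub_re, Complex.ofReal_re, Complex.sub_im, Complex.ofReal_im, sub_zero]
    at h1 h2
  show |z.im| < z.re
  have := (abs_le.1 h1).1
  linarith

variable {A : Type} [NormedCommRing A] [NormedAlgebra ℂ A] [CompleteSpace A]

/-! ### derivatives -/

omit [CompleteSpace A] in
lemma comp_der {g : ℂ → A} (hg : DifferentiableOn ℂ g Om0) {u : ℝ} (hu : 0 < u) :
    HasDerivAt (fun u : ℝ => g ((Yf u : ℝ) : ℂ))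
      (((2 * Real.exp (2 * u) : ℝ) : ℂ) • deriv g ((Yf u : ℝ) : ℂ)) u := by
  have h1 : HasDerivAt g (deriv g ((Yf u : ℝ) : ℂ)) ((Yf u : ℝ) : ℂ) :=
    (hg.differentiableAt (isOpen_Om0.mem_nhds (ofReal_Om0 (Yf_pos hu)))).hasDerivAt
  have h2 : HasDerivAt (fun u : ℝ => ((Yf u : ℝ) : ℂ)) ((2 * Real.exp (2 * u) : ℝ) : ℂ) u :=
    (Yf_der u).ofReal_comp
  exact HasDerivAt.scomp u h1 h2

omit [CompleteSpace A] in
lemma smul_der {g : ℂ → A} (hg : DifferentiableOn ℂ g Om0) {c : ℝ → ℝ} {c' : ℝ} {u : ℝ}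
    (hu : 0 < u) (hc : HasDerivAt c c' u) :
    HasDerivAt (fun u : ℝ => ((c u : ℝ) : ℂ) • g ((Yf u : ℝ) : ℂ))
      (((c' : ℝ) : ℂ) • g ((Yf u : ℝ) : ℂ) +
        ((c u * (2 * Real.exp (2 * u)) : ℝ) : ℂ) • deriv g ((Yf u : ℝ) : ℂ)) u := by
  have h := (hc.ofReal_comp).smul (comp_der hg hu)
  refine h.congr_deriv ?_
  rw [smul_smul, add_comm]
  push_cast
  rfl

/-- first derivative of `VV` -/
def V1 (G : ℂ → A) (u : ℝ) : A :=
  ((cf1 u : ℝ) : ℂ) • G ((Yf u : ℝ) : ℂ) +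
    ((cf u * (2 * Real.exp (2 * u)) : ℝ) : ℂ) • deriv G ((Yf u : ℝ) : ℂ)

/-- second derivative of `VV` -/
def V2 (G : ℂ → A) (u : ℝ) : A :=
  ((cf u : ℝ) : ℂ) • G ((Yf u : ℝ) : ℂ) +
    ((cf1 u * (4 * Real.exp (2 * u)) + cf u * (4 * Real.exp (2 * u)) : ℝ) : ℂ) •
      deriv G ((Yf u : ℝ) : ℂ) +
    ((cf u * (4 * Real.exp (4 * u)) : ℝ) : ℂ) • deriv (deriv G) ((Yf u : ℝ) : ℂ)

lemma diff_deriv {g : ℂ → A} (hg : DifferentiableOn ℂ g Om0) :
    DifferentiableOn ℂ (deriv g) Om0 := hg.deriv isOpen_Om0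

lemma V1_der {g : ℂ → A} (hg : DifferentiableOn ℂ g Om0) {u : ℝ} (hu : 0 < u) :
    HasDerivAt (V1 g) (V2 g u) u := by
  have h1 := smul_der hg hu (cf1_der u)
  have h2 := smul_der (diff_deriv hg) hu ((cf_der u).mul ((e2_der u).const_mul 2))
  refine (h1.add h2).congr_deriv ?_
  unfold V2
  have e : Real.exp (4 * u) = Real.exp (2 * u) * Real.exp (2 * u) := by
    rw [← Real.exp_add]; congr 1; ring
  rw [e]
  simp only [Pi.mul_apply]
  push_cast
  module

omit [CompleteSpace A] in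
lemma VV_eq (H : ℝ → A) : VV H = fun u => ((cf u : ℝ) : ℂ) • GV H ((Yf u : ℝ) : ℂ) := rfl

omit [CompleteSpace A] in
lemma V0_der {H : ℝ → A} (hg : DifferentiableOn ℂ (GV H) Om0) {u : ℝ} (hu : 0 < u) :
    HasDerivAt (VV H) (V1 (GV H) u) u := by
  rw [VV_eq]
  exact smul_der hg hu (cf_der u)

lemma deriv_VV {H : ℝ → A} (hg : DifferentiableOn ℂ (GV H) Om0) {u : ℝ} (hu : 0 < u) :
    deriv (VV H) u = V1 (GV H) u := (V0_der hg hu).deriv

lemma V1_der' {H : ℝ → A} (hg : DifferentiableOn ℂ (GV H) Om0) {u : ℝ} (hu : 0 < u) :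
    HasDerivAt (deriv (VV H)) (V2 (GV H) u) u := by
  refine (V1_der hg hu).congr_of_eventuallyEq ?_
  filter_upwards [lt_mem_nhds hu] with w hw
  exact deriv_VV hg hw

lemma VPP_eq {H : ℝ → A} (hg : DifferentiableOn ℂ (GV H) Om0) {u : ℝ} (hu : 0 < u) :
    VPP H u = V2 (GV H) u := (V1_der' hg hu).deriv

lemma V2_cont {g : ℂ → A} (hg : DifferentiableOn ℂ g Om0) : ContinuousOn (V2 g) (Ioi 0) := by
  have hY : ContinuousOn (fun u : ℝ => ((Yf u : ℝ) : ℂ)) (Ioi 0) := by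
    unfold Yf; fun_prop
  have hm : MapsTo (fun u : ℝ => ((Yf u : ℝ) : ℂ)) (Ioi 0) Om0 := fun u hu =>
    ofReal_Om0 (Yf_pos hu)
  have h0 := hg.continuousOn.comp hY hm
  have h1 := (diff_deriv hg).continuousOn.comp hY hm
  have h2 := (diff_deriv (diff_deriv hg)).continuousOn.comp hY hm
  unfold V2
  have hcf : Continuous cf := by unfold cf; fun_prop
  have hcf1 : Continuous cf1 := by unfold cf1; fun_prop
  refine ContinuousOn.add (ContinuousOn.add ?_ ?_) ?_
  · exact ContinuousOn.smul (by fun_prop) h0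
  · exact ContinuousOn.smul (by fun_prop) h1
  · exact ContinuousOn.smul (by fun_prop) h2

/-! ### Cauchy estimates -/

lemma cauchy1 {g : ℂ → A} (hg : DifferentiableOn ℂ g Om0) {M y : ℝ} (hy : 0 < y) (hM : 0 ≤ M)
    (hb : ∀ z ∈ Om0, ‖g z‖ ≤ M * ‖z‖ ^ (1 / 4 : ℝ)) :
    ‖deriv g (y : ℂ)‖ ≤ 8 * M * y ^ (-(3 / 4) : ℝ) ∧
    ‖deriv (deriv g) (y : ℂ)‖ ≤ 64 * M * y ^ (-(7 / 4) : ℝ) := by
  have hbd : ∀ z ∈ Metric.closedBall (y : ℂ) (y / 4), ‖g z‖ ≤ 2 * M * y ^ (1 / 4 : ℝ) := by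
    intro z hz
    have h1 := hb z (ball_Om0 hy hz)
    have h2 : ‖z‖ ≤ 2 * y := by
      rw [Metric.mem_closedBall, dist_eq_norm] at hz
      have := norm_add_le (z - y) (y : ℂ)
      rw [sub_add_cancel, Complex.norm_real, Real.norm_eq_abs, abs_of_pos hy] at this
      linarith
    have h3 : ‖z‖ ^ (1 / 4 : ℝ) ≤ 2 * y ^ (1 / 4 : ℝ) := by
      calc ‖z‖ ^ (1 / 4 : ℝ) ≤ (2 * y) ^ (1 / 4 : ℝ) :=
            Real.rpow_le_rpow (norm_nonneg _) h2 (by norm_num)
        _ = (2 : ℝ) ^ (1 / 4 : ℝ) * y ^ (1 / 4 : ℝ) := Real.mul_rpow (by norm_num) hy.le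
        _ ≤ 2 * y ^ (1 / 4 : ℝ) := by
          refine mul_le_mul_of_nonneg_right ?_ (by positivity)
          calc (2 : ℝ) ^ (1 / 4 : ℝ) ≤ (2 : ℝ) ^ (1 : ℝ) :=
                Real.rpow_le_rpow_of_exponent_le (by norm_num) (by norm_num)
            _ = 2 := Real.rpow_one _
    calc ‖g z‖ ≤ M * ‖z‖ ^ (1 / 4 : ℝ) := h1
      _ ≤ M * (2 * y ^ (1 / 4 : ℝ)) := mul_le_mul_of_nonneg_left h3 hM
      _ = 2 * M * y ^ (1 / 4 : ℝ) := by ring
  have hdc : DiffContOnCl ℂ g (Metric.ball (y : ℂ) (y / 4)) := by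
    apply DifferentiableOn.diffContOnCl
    rw [closure_ball _ (by positivity : y / 4 ≠ 0)]
    exact hg.mono (ball_Om0 hy)
  have hr : 0 < y / 4 := by positivity
  constructor
  · have h1 := Complex.norm_deriv_le_of_forall_mem_sphere_norm_le hr hdc
      fun w hw => hbd w (Metric.sphere_subset_closedBall hw)
    refine h1.trans (le_of_eq ?_)
    have : y ^ (-(3 / 4) : ℝ) = y ^ (1 / 4 : ℝ) / y := by
      rw [show (-(3 / 4) : ℝ) = 1 / 4 - 1 by norm_num, Real.rpow_sub_one hy.ne']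
    rw [this]
    field_simp
    ring
  · have h1 := Complex.norm_iteratedDeriv_le_of_forall_mem_sphere_norm_le 2 hr hdc
      fun w hw => hbd w (Metric.sphere_subset_closedBall hw)
    rw [iteratedDeriv_succ, iteratedDeriv_one] at h1
    refine h1.trans (le_of_eq ?_)
    have : y ^ (-(7 / 4) : ℝ) = y ^ (1 / 4 : ℝ) / y ^ 2 := by
      rw [show (-(7 / 4) : ℝ) = 1 / 4 - 2 by norm_num, Real.rpow_sub hy, Real.rpow_two]
    rw [this]
    field_simp
    simp only [Nat.factorial]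
    push_cast
    ring

/-! ### the comparison function -/

lemma cmp_der {g1 g2 : ℂ → A} (h1 : DifferentiableOn ℂ g1 Om0) (h2 : DifferentiableOn ℂ g2 Om0)
    (v : A) {y : ℂ} (hy : y ∈ Om0) :
    deriv (fun z => g1 z - g2 z - v) y = deriv g1 y - deriv g2 y ∧
    deriv (deriv (fun z => g1 z - g2 z - v)) y = deriv (deriv g1) y - deriv (deriv g2) y := by
  have e1 : ∀ w ∈ Om0, deriv (fun z => g1 z - g2 z - v) w = deriv g1 w - deriv g2 w := by
    intro w hw
    have a1 := (h1.differentiableAt (isOpen_Om0.mem_nhds hw)).hasDerivAt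
    have a2 := (h2.differentiableAt (isOpen_Om0.mem_nhds hw)).hasDerivAt
    exact ((a1.sub a2).sub_const v).deriv
  refine ⟨e1 y hy, ?_⟩
  have e2 : deriv (fun z => g1 z - g2 z - v) =ᶠ[𝓝 y] fun w => deriv g1 w - deriv g2 w := by
    filter_upwards [isOpen_Om0.mem_nhds hy] with w hw using e1 w hw
  rw [e2.deriv_eq]
  have a1 := ((diff_deriv h1).differentiableAt (isOpen_Om0.mem_nhds hy)).hasDerivAt
  have a2 := ((diff_deriv h2).differentiableAt (isOpen_Om0.mem_nhds hy)).hasDerivAt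
  exact (a1.sub a2).deriv

omit [NormedAlgebra ℂ A] [CompleteSpace A] in
lemma zero_NB : NB (fun _ : ℝ => (0 : A)) (1 / 40) := by
  refine ⟨aestronglyMeasurable_const, ?_, ?_⟩
  · simp
  · simp

omit [CompleteSpace A] in
lemma lam_zero (b : ℂ) : lam (fun _ : ℝ => (0 : A)) b = 0 := by
  unfold lam; simp

omit [CompleteSpace A] in
lemma GV_zero (y : ℂ) : GV (fun _ : ℝ => (0 : A)) y = 0 := by
  unfold GV; simp [lam_zero]

lemma pow_aux {u : ℝ} (hu : 0 < u) : 1 ≤ u ^ (-(3 / 4) : ℝ) * Real.exp (4 * u) := by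
  have h1 : u ^ (3 / 4 : ℝ) ≤ Real.exp (4 * u) := by
    have h2 : u ^ (3 / 4 : ℝ) ≤ 1 + u := by
      rcases le_total u 1 with h | h
      · have := Real.rpow_le_one hu.le h (by norm_num : (0:ℝ) ≤ 3 / 4)
        linarith
      · have : u ^ (3 / 4 : ℝ) ≤ u ^ (1 : ℝ) :=
          Real.rpow_le_rpow_of_exponent_le h (by norm_num)
        rw [Real.rpow_one] at this
        linarith
    have h3 := Real.add_one_le_exp (4 * u)
    linarith
  have h4 : u ^ (-(3 / 4) : ℝ) * u ^ (3 / 4 : ℝ) = 1 := by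
    rw [← Real.rpow_add hu]; norm_num
  calc (1:ℝ) = u ^ (-(3 / 4) : ℝ) * u ^ (3 / 4 : ℝ) := h4.symm
    _ ≤ _ := mul_le_mul_of_nonneg_left h1 (by positivity)

lemma Yf_pow {u : ℝ} (hu : 0 < u) : Yf u ^ (-(3 / 4) : ℝ) ≤ u ^ (-(3 / 4) : ℝ) := by
  exact Real.rpow_le_rpow_of_nonpos hu (by linarith [Yf_ge u]) (by norm_num)

theorem th (hG : S_GV) : S_VPP := by
  obtain ⟨C, hC, hGC⟩ := hG
  refine ⟨1000 * C, by positivity, ?_⟩
  intro A _ _ _ _ H hH
  have hH0 : NB (fun x => H x - (fun _ : ℝ => (0 : A)) x) (1 / 40) := by simpa using hH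
  obtain ⟨hd, hb⟩ := hGC A H (fun _ => 0) (1 / 40) hH zero_NB hH0
  have hb1 : ∀ y ∈ Om0, ‖GV H y‖ ≤ C / 40 := by
    intro y hy
    have := (hb y hy).1
    rw [GV_zero, sub_zero] at this
    linarith
  have hb2 : ∀ y ∈ Om0, ‖GV H y - ((Real.pi / 4 : ℝ) : ℂ) • lam H 0‖ ≤
      C / 40 * ‖y‖ ^ (1 / 4 : ℝ) := by
    intro y hy
    have := (hb y hy).2
    rw [GV_zero, lam_zero, smul_zero, sub_zero, sub_zero] at this
    linarith
  have hY : Tendsto Yf (𝓝[>] 0) (𝓝 0) := by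
    have hc : Continuous Yf := by unfold Yf; fun_prop
    have := (hc.tendsto 0).mono_left (nhdsWithin_le_nhds (s := Ioi 0))
    simpa [Yf] using this
  have hcf0 : Tendsto cf (𝓝[>] 0) (𝓝 0) := by
    have hc : Continuous cf := by unfold cf; fun_prop
    have := (hc.tendsto 0).mono_left (nhdsWithin_le_nhds (s := Ioi 0))
    simpa [cf] using this
  have hcf10 : Tendsto cf1 (𝓝[>] 0) (𝓝 4) := by
    have hc : Continuous cf1 := by unfold cf1; fun_prop
    have := (hc.tendsto 0).mono_left (nhdsWithin_le_nhds (s := Ioi 0))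
    have e : cf1 0 = 4 := by unfold cf1; norm_num
    rwa [e] at this
  have hYp : Tendsto (fun u => Yf u ^ (1 / 4 : ℝ)) (𝓝[>] 0) (𝓝 0) := by
    have := hY.rpow_const (p := (1 / 4 : ℝ)) (Or.inr (by norm_num))
    rwa [Real.zero_rpow (by norm_num)] at this
  have hder : ∀ u : ℝ, 0 < u → ‖deriv (GV H) ((Yf u : ℝ) : ℂ)‖ ≤
      C / 5 * Yf u ^ (-(3 / 4) : ℝ) := by
    intro u hu
    have h1 : DifferentiableOn ℂ (fun z => GV H z - ((Real.pi / 4 : ℝ) : ℂ) • lam H 0) Om0 :=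
      hd.sub_const _
    have h2 := (cauchy1 h1 (Yf_pos hu) (by positivity : 0 ≤ C / 40) hb2).1
    have h3 : deriv (fun z => GV H z - ((Real.pi / 4 : ℝ) : ℂ) • lam H 0) ((Yf u : ℝ) : ℂ) =
        deriv (GV H) ((Yf u : ℝ) : ℂ) :=
      ((hd.differentiableAt (isOpen_Om0.mem_nhds
        (ofReal_Om0 (Yf_pos hu)))).hasDerivAt.sub_const _).deriv
    rw [h3] at h2
    linarith
  refine ⟨?_, ?_, ?_, ?_, ?_, ?_⟩
  · intro u hu
    rw [deriv_VV hd hu, VPP_eq hd hu]
    exact ⟨V0_der hd hu, V1_der' hd hu⟩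
  · exact (V2_cont hd).congr fun u hu => VPP_eq hd hu
  · refine squeeze_zero_norm' (a := fun u => cf u * (C / 40)) ?_ ?_
    · filter_upwards [self_mem_nhdsWithin] with u hu
      rw [VV_eq]
      simp only
      rw [norm_smul, Complex.norm_real, Real.norm_eq_abs, abs_of_nonneg (cf_nonneg hu)]
      exact mul_le_mul_of_nonneg_left (hb1 _ (ofReal_Om0 (Yf_pos hu))) (cf_nonneg hu)
    · simpa using hcf0.mul_const (C / 40)
  · have e1 : Tendsto (fun u : ℝ => ((cf1 u : ℝ) : ℂ) • GV H ((Yf u : ℝ) : ℂ)) (𝓝[>] 0)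
        (𝓝 ((4 : ℂ) • (((Real.pi / 4 : ℝ) : ℂ) • lam H 0))) := by
      refine Tendsto.smul ?_ ?_
      · have := (Complex.continuous_ofReal.tendsto 4).comp hcf10
        simpa [Function.comp_def] using this
      · rw [tendsto_iff_norm_sub_tendsto_zero]
        refine squeeze_zero' (Eventually.of_forall fun _ => norm_nonneg _)
          (g := fun u => C / 40 * Yf u ^ (1 / 4 : ℝ)) ?_ ?_
        · filter_upwards [self_mem_nhdsWithin] with u hu
          have := hb2 _ (ofReal_Om0 (Yf_pos hu))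
          rwa [Complex.norm_real, Real.norm_eq_abs, abs_of_pos (Yf_pos hu)] at this
        · simpa using hYp.const_mul (C / 40)
    have e2 : Tendsto (fun u : ℝ => ((cf u * (2 * Real.exp (2 * u)) : ℝ) : ℂ) •
        deriv (GV H) ((Yf u : ℝ) : ℂ)) (𝓝[>] 0) (𝓝 0) := by
      refine squeeze_zero_norm' (a := fun u => 4 * C / 5 * Real.exp u * Yf u ^ (1 / 4 : ℝ)) ?_ ?_
      · filter_upwards [self_mem_nhdsWithin] with u hu
        have hu' : 0 < u := hu
        have hYu := Yf_pos hu'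
        rw [norm_smul, Complex.norm_real, Real.norm_eq_abs, abs_of_nonneg
          (mul_nonneg (cf_nonneg hu) (by positivity))]
        refine (mul_le_mul_of_nonneg_left (hder u hu)
          (mul_nonneg (cf_nonneg hu) (by positivity))).trans (le_of_eq ?_)
        have a1 : Yf u ^ (1 / 4 : ℝ) = Yf u * Yf u ^ (-(3 / 4) : ℝ) := by
          rw [show (1 / 4 : ℝ) = 1 + -(3 / 4) by norm_num, Real.rpow_add hYu, Real.rpow_one]
        have a2 : Real.exp u = Real.exp (-u) * Real.exp (2 * u) := by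
          rw [← Real.exp_add]; congr 1; ring
        rw [a1, a2, cf_eq']
        ring
      · have := ((Real.continuous_exp.tendsto 0).mono_left
          (nhdsWithin_le_nhds (s := Ioi 0))).const_mul (4 * C / 5)
        simpa using this.mul hYp
    have e3 := e1.add e2
    rw [add_zero, smul_smul] at e3
    have e4 : ((4 : ℂ) * ((Real.pi / 4 : ℝ) : ℂ)) = (Real.pi : ℂ) := by push_cast; ring
    rw [e4] at e3
    refine e3.congr' ?_
    filter_upwards [self_mem_nhdsWithin] with u hu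
    exact (deriv_VV hd hu).symm
  · intro u hu
    rw [VV_eq]
    simp only
    rw [norm_smul, Complex.norm_real, Real.norm_eq_abs, abs_of_nonneg (cf_nonneg hu)]
    have h1 := hb1 _ (ofReal_Om0 (Yf_pos hu))
    have h2 : Real.exp u ≤ Real.exp (5 * u) := Real.exp_le_exp.2 (by linarith)
    have h3 : cf u ≤ 2 * Real.exp (5 * u) := by linarith [cf_le (u := u)]
    calc cf u * ‖GV H ((Yf u : ℝ) : ℂ)‖ ≤ 2 * Real.exp (5 * u) * (C / 40) :=
          mul_le_mul h3 h1 (norm_nonneg _) (by positivity)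
      _ ≤ 1000 * C * Real.exp (5 * u) := by
          have : 0 < C * Real.exp (5 * u) := by positivity
          nlinarith
  · intro K η hK hHK u hu
    obtain ⟨hd2, -⟩ := hGC A K (fun _ => 0) (1 / 40) hK zero_NB (by simpa using hK)
    obtain ⟨-, hbb⟩ := hGC A H K η hH hK hHK
    have hη : 0 ≤ η := NB.nonneg hHK
    have hYu := Yf_pos hu
    set v : A := ((Real.pi / 4 : ℝ) : ℂ) • lam H 0 - ((Real.pi / 4 : ℝ) : ℂ) • lam K 0 with hv
    have hgd : DifferentiableOn ℂ (fun z => GV H z - GV K z - v) Om0 :=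
      (hd.sub hd2).sub_const _
    have hgb : ∀ z ∈ Om0, ‖GV H z - GV K z - v‖ ≤ C * η * ‖z‖ ^ (1 / 4 : ℝ) := by
      intro z hz
      have h1 := (hbb z hz).2
      have e : GV H z - GV K z - v = (GV H z - ((Real.pi / 4 : ℝ) : ℂ) • lam H 0) -
          (GV K z - ((Real.pi / 4 : ℝ) : ℂ) • lam K 0) := by rw [hv]; abel
      rw [e]
      linarith
    obtain ⟨c1, c2⟩ := cauchy1 hgd hYu (by positivity : 0 ≤ C * η) hgb
    obtain ⟨d1, d2⟩ := cmp_der hd hd2 v (ofReal_Om0 hYu)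
    rw [d1] at c1
    rw [d2] at c2
    have c0 := (hbb _ (ofReal_Om0 hYu)).1
    rw [VPP_eq hd hu, VPP_eq hd2 hu]
    have e : V2 (GV H) u - V2 (GV K) u =
        ((cf u : ℝ) : ℂ) • (GV H ((Yf u : ℝ) : ℂ) - GV K ((Yf u : ℝ) : ℂ)) +
        ((cf1 u * (4 * Real.exp (2 * u)) + cf u * (4 * Real.exp (2 * u)) : ℝ) : ℂ) •
          (deriv (GV H) ((Yf u : ℝ) : ℂ) - deriv (GV K) ((Yf u : ℝ) : ℂ)) +
        ((cf u * (4 * Real.exp (4 * u)) : ℝ) : ℂ) • (deriv (deriv (GV H)) ((Yf u : ℝ) : ℂ) -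
          deriv (deriv (GV K)) ((Yf u : ℝ) : ℂ)) := by
      unfold V2
      module
    rw [e]
    have n0 := cf_nonneg hu
    have n1 := cf1_nonneg u
    have l0 := cf_le (u := u)
    have l1 := cf1_le hu
    set P : ℝ := u ^ (-(3 / 4) : ℝ) with hP
    have hP0 : 0 < P := by positivity
    set E : ℝ := Real.exp (5 * u) with hE
    have hE0 : 0 < E := Real.exp_pos _
    have hyP : Yf u ^ (-(3 / 4) : ℝ) ≤ P := Yf_pow hu
    have b0 : Real.exp u ≤ P * E := by
      have h1 := pow_aux hu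
      have h2 : E = Real.exp (4 * u) * Real.exp u := by
        rw [hE, ← Real.exp_add]; congr 1; ring
      rw [h2]
      nlinarith [Real.exp_pos u]
    have b3 : Real.exp (3 * u) ≤ E := Real.exp_le_exp.2 (by linarith)
    have t0 : ‖((cf u : ℝ) : ℂ) • (GV H ((Yf u : ℝ) : ℂ) - GV K ((Yf u : ℝ) : ℂ))‖ ≤
        2 * (C * P * E * η) := by
      rw [norm_smul, Complex.norm_real, Real.norm_eq_abs, abs_of_nonneg n0]
      calc cf u * ‖GV H ((Yf u : ℝ) : ℂ) - GV K ((Yf u : ℝ) : ℂ)‖ ≤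
            (2 * (P * E)) * (C * η) :=
            mul_le_mul (l0.trans (by linarith)) c0 (norm_nonneg _) (by positivity)
        _ = 2 * (C * P * E * η) := by ring
    have t1 : ‖((cf1 u * (4 * Real.exp (2 * u)) + cf u * (4 * Real.exp (2 * u)) : ℝ) : ℂ) •
          (deriv (GV H) ((Yf u : ℝ) : ℂ) - deriv (GV K) ((Yf u : ℝ) : ℂ))‖ ≤
        192 * (C * P * E * η) := by
      have e2 : 0 < Real.exp (2 * u) := Real.exp_pos _
      rw [norm_smul, Complex.norm_real, Real.norm_eq_abs, abs_of_nonneg (by positivity)]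
      have q1 : cf1 u * (4 * Real.exp (2 * u)) + cf u * (4 * Real.exp (2 * u)) ≤ 24 * E := by
        have q2 : Real.exp u * Real.exp (2 * u) = Real.exp (3 * u) := by
          rw [← Real.exp_add]; congr 1; ring
        nlinarith
      calc _ ≤ (24 * E) * (8 * (C * η) * P) :=
            mul_le_mul q1 (c1.trans (mul_le_mul_of_nonneg_left hyP (by positivity)))
              (norm_nonneg _) (by positivity)
        _ = 192 * (C * P * E * η) := by ring
    have t2 : ‖((cf u * (4 * Real.exp (4 * u)) : ℝ) : ℂ) • (deriv (deriv (GV H))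
          ((Yf u : ℝ) : ℂ) - deriv (deriv (GV K)) ((Yf u : ℝ) : ℂ))‖ ≤
        512 * (C * P * E * η) := by
      rw [norm_smul, Complex.norm_real, Real.norm_eq_abs, abs_of_nonneg (by positivity)]
      have q1 : cf u * (4 * Real.exp (4 * u)) = 8 * Real.exp (3 * u) * Yf u := by
        have q2 : Real.exp (-u) * Real.exp (4 * u) = Real.exp (3 * u) := by
          rw [← Real.exp_add]; congr 1; ring
        rw [cf_eq', ← q2]; ring
      have q3 : Yf u ^ (-(7 / 4) : ℝ) * Yf u = Yf u ^ (-(3 / 4) : ℝ) := by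
        rw [show (-(3 / 4) : ℝ) = -(7 / 4) + 1 by norm_num, Real.rpow_add hYu, Real.rpow_one]
      calc _ ≤ (cf u * (4 * Real.exp (4 * u))) * (64 * (C * η) * Yf u ^ (-(7 / 4) : ℝ)) :=
            mul_le_mul_of_nonneg_left c2 (by positivity)
        _ = 512 * (C * η) * Real.exp (3 * u) * (Yf u ^ (-(7 / 4) : ℝ) * Yf u) := by
            rw [q1]; ring
        _ = 512 * (C * η) * Real.exp (3 * u) * Yf u ^ (-(3 / 4) : ℝ) := by rw [q3]
        _ ≤ 512 * (C * η) * E * P := by gcongr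
        _ = 512 * (C * P * E * η) := by ring
    have tt := norm_add₃_le (a := ((cf u : ℝ) : ℂ) • (GV H ((Yf u : ℝ) : ℂ) -
          GV K ((Yf u : ℝ) : ℂ)))
        (b := ((cf1 u * (4 * Real.exp (2 * u)) + cf u * (4 * Real.exp (2 * u)) : ℝ) : ℂ) •
          (deriv (GV H) ((Yf u : ℝ) : ℂ) - deriv (GV K) ((Yf u : ℝ) : ℂ)))
        (c := ((cf u * (4 * Real.exp (4 * u)) : ℝ) : ℂ) • (deriv (deriv (GV H))
          ((Yf u : ℝ) : ℂ) - deriv (deriv (GV K)) ((Yf u : ℝ) : ℂ)))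
    have pos : 0 ≤ C * P * E * η := by positivity
    calc _ ≤ _ := tt
      _ ≤ 706 * (C * P * E * η) := by linarith
      _ ≤ 1000 * C * P * E * η := by nlinarith

end Pool.Agent.W374.UN.VPP
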